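import Mathlib
import Pool.Agent.Y947.RL.Stm4

/-!
# Project RL: from polynomials to algebraic integers
-/

set_option autoImplicit false

open Polynomial Pool.Agent.Y947.RL

namespace Pool.Agent.Y947.RL2

lemma sp_map' {A B : Type*} [CommRing A] [CommRing B] (φ : A →+* B) (ω : A) (F : ℤ[X][X]) :
    (sp ω F).map φ = sp (φ ω) F := by
  unfold sp
  rw [Polynomial.map_map]
  congr 1
  refine RingHom.ext fun q => ?_
  show φ (aeval ω q) = aeval (φ ω) q
  rw [aeval_def, aeval_def, hom_eval₂]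
  congr 1
  exact Subsingleton.elim _ _

/-- the bound for algebraic integers -/
def T_ALG : Prop := ∃ c : ℝ, 0 < c ∧ ∀ z : ℂ, IsIntegral ℤ z → z ≠ 0 →
  (∀ n : ℕ, 0 < n → z ^ n ≠ 1) →
    (∃ (m : ℕ) (ω₀ : QAb) (F : ℤ[X][X]), 0 < m ∧ IsPrimitiveRoot ω₀ m ∧ F.Monic ∧
      sp ω₀ F = minpoly QAb z) ∧
    ∀ (m : ℕ) (ω₀ : QAb) (F : ℤ[X][X]), 0 < m → IsPrimitiveRoot ω₀ m → F.Monic →
      sp ω₀ F = minpoly QAb z →
      ∀ (K : IntermediateField ℚ ℂ) [FiniteDimensional ℚ K],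
        c / Module.finrank ℚ K / (1 + meanP m (fun ω => mpc (sp ω F))) ^ 6 ≤
          (minpoly (K ⊔ QAb : IntermediateField ℚ ℂ) z).natDegree * hgt z

theorem alg (hfin : T_FIN) (hhgt : T_HGT) (hrep : T_REP) (hcnj : T_CNJ)
    (htow : ∀ (K : IntermediateField ℚ ℂ) [FiniteDimensional ℚ K] (z : ℂ), IsAlgebraic ℚ z →
      (minpoly QAb z).natDegree ≤
        Module.finrank ℚ K * (minpoly (K ⊔ QAb : IntermediateField ℚ ℂ) z).natDegree) : T_ALG := by
  obtain ⟨c, hc, h⟩ := hfin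
  refine ⟨c, hc, ?_⟩
  intro z hz h0 hroot
  refine ⟨hrep z hz, ?_⟩
  intro m ω₀ F hm hω₀ hF heq K _
  have hyp := hcnj z hz h0 hroot m ω₀ F hm hω₀ hF heq
  have hω : IsPrimitiveRoot (ω₀ : ℂ) m :=
    hω₀.map_of_injective (f := algebraMap QAb ℂ) (algebraMap QAb ℂ).injective
  have hzero : (sp (ω₀ : ℂ) F).eval z = 0 := by
    have h1 : sp (ω₀ : ℂ) F = (minpoly QAb z).map (algebraMap QAb ℂ) := by
      rw [← heq, sp_map']
      rfl
    rw [h1, eval_map_algebraMap, minpoly.aeval]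
  have hdeg : F.natDegree = (minpoly QAb z).natDegree := by
    rw [← heq]
    unfold sp
    rw [hF.natDegree_map]
  have h1 := h m F hyp
  rw [hhgt m F hyp ω₀ hω z hzero, hdeg] at h1
  set M : ℝ := meanP m (fun ω => mpc (sp ω F)) with hM
  have hM0 : 0 ≤ M := by
    rw [hM]
    unfold meanP
    apply div_nonneg _ (Nat.cast_nonneg _)
    apply Finset.sum_nonneg
    intro ω _
    unfold mpc
    exact Real.circleAverage_nonneg_of_nonneg fun _ _ => Real.posLog_nonneg
  have hpow : 0 < (1 + M) ^ 6 := by positivity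
  have hK : (0:ℝ) < Module.finrank ℚ K := by exact_mod_cast Module.finrank_pos
  have h2 : 0 < c / (1 + M) ^ 6 := by positivity
  have h3 : 0 < hgt z := by
    by_contra hneg
    push Not at hneg
    have : ((minpoly QAb z).natDegree : ℝ) * hgt z ≤ 0 :=
      mul_nonpos_of_nonneg_of_nonpos (Nat.cast_nonneg _) hneg
    linarith
  have hzalg : IsAlgebraic ℚ z := (hz.tower_top (A := ℚ)).isAlgebraic
  have h4 : ((minpoly QAb z).natDegree : ℝ) ≤
      Module.finrank ℚ K * (minpoly (K ⊔ QAb : IntermediateField ℚ ℂ) z).natDegree := by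
    exact_mod_cast htow K z hzalg
  rw [div_div, mul_comm ((Module.finrank ℚ K : ℝ)), ← div_div, div_le_iff₀ hK]
  calc c / (1 + M) ^ 6 ≤ (minpoly QAb z).natDegree * hgt z := h1
    _ ≤ (Module.finrank ℚ K * (minpoly (K ⊔ QAb : IntermediateField ℚ ℂ) z).natDegree) * hgt z :=
        mul_le_mul_of_nonneg_right h4 h3.le
    _ = (minpoly (K ⊔ QAb : IntermediateField ℚ ℂ) z).natDegree * hgt z * Module.finrank ℚ K := by ring

end Pool.Agent.Y947.RL2
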