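import Mathlib
import Pool.Agent.Y947.RL.Fin
import Pool.Agent.Y947.RL2.Kth2

/-!
# Project RL: the theorem for polynomials, without a hypothesis on quotients of zeros
-/

set_option autoImplicit false

open Finset Polynomial Module Pool.Agent.H388SL Pool.Agent.Y947.DL Pool.Agent.Y947.RL

namespace Pool.Agent.Y947.RL2

lemma meanP_congr {m : ℕ} (hm : 0 < m) {f g : ℂ → ℝ} (h : ∀ ω : ℂ, IsPrimitiveRoot ω m → f ω = g ω) :
    meanP m f = meanP m g := by
  unfold meanP
  congr 1
  exact Finset.sum_congr rfl fun ω hω => h ω ((mem_primitiveRoots hm).mp hω)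

/-- the bound for polynomials such that no quotient of different zeros of the same polynomial is a
root of unity -/
theorem fin_two (hK : T_KTH) (hfk : T_FK) (hred : T_RED) (hmea : S_MEA) (hfxe : T_FXE) (hsc : T_SC)
    (hutk : T_UTK) (htwa : T_TWA) (hctw : T_CTW) :
    ∃ c : ℝ, 0 < c ∧ ∀ (m : ℕ) (F : ℤ[X][X]), Hyp2 m F →
      c / (1 + meanP m (fun ω => mpc (sp ω F))) ^ 6 ≤
        meanP m (fun ω => Real.log (sp ω F).mahlerMeasure) := by
  obtain ⟨c, hc, hk⟩ := hK
  refine ⟨c, hc, ?_⟩
  intro m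
  induction m using Nat.strong_induction_on with
  | _ m ih =>
    intro F hF
    have hm := hF.hm
    obtain ⟨K, _, _, ζ, α, hC, hprod⟩ := hfk m F hF
    by_cases hsq : SQ m ζ α
    · obtain ⟨k, hut, hsame⟩ := hutk K m ζ α hC
      obtain ⟨hC', hlam, hMp⟩ := hctw K m ζ α hC k
      have hsq' : SQ m ζ (ζ ^ k * α) := by
        intro p hp hpm
        obtain ⟨u, hu, hnot⟩ := hsq p hp hpm
        exact ⟨u, hu, fun h => hnot (hsame p hp hpm u hu h)⟩
      have h1 := hk K m ζ (ζ ^ k * α) hC' hut hsq'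
      rw [hlam, hMp] at h1
      rw [mean_mahler hm hC.hζ hprod]
      have e := mean_Mp (ζ := ζ) (α := α) hm hprod
      unfold mpc
      rw [e]
      exact h1
    · unfold SQ at hsq
      push Not at hsq
      obtain ⟨p, hp, hpm, hfix⟩ := hsq
      obtain ⟨k, hk2⟩ := htwa K m ζ α hC p hp hpm hfix
      obtain ⟨hF1, hinv, hpr⟩ := hsc m F hF k
      obtain ⟨hC', -, -⟩ := hctw K m ζ α hC k
      have hprod1 := hpr K ζ α hprod
      set F1 := F.scaleRoots (X ^ k) with hF1def
      have hcop : ∀ u ∈ Gset m p, u.Coprime m := by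
        intro u hu
        unfold Gset at hu
        exact (Finset.mem_filter.mp hu).2.1
      have h2 : ∀ ω : ℂ, IsPrimitiveRoot ω m → ∀ u ∈ Gset m p, sp (ω ^ u) F1 = sp ω F1 := by
        intro ω hω u hu
        rw [hprod1 ω hω, hprod1 (ω ^ u) (hω.pow_of_coprime u (hcop u hu)),
          hfxe K m ζ (ζ ^ k * α) hC' u (hcop u hu) (hk2 u hu) ω hω]
      obtain ⟨F', hF', heq⟩ := hred m F1 hF1 p hp hpm h2
      have hlt : m / p < m := Nat.div_lt_self hm hp.one_lt
      have h3 := ih (m / p) hlt F' hF'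
      rw [← hmea m p hm hp hpm, ← hmea m p hm hp hpm] at h3
      have e1 : meanP m (fun ω => mpc (sp (ω ^ p) F')) = meanP m (fun ω => mpc (sp ω F)) := by
        apply meanP_congr hm
        intro ω hω
        rw [heq ω hω, (hinv ω hω).2]
      have e2 : meanP m (fun ω => Real.log (sp (ω ^ p) F').mahlerMeasure) =
          meanP m (fun ω => Real.log (sp ω F).mahlerMeasure) := by
        apply meanP_congr hm
        intro ω hω
        rw [heq ω hω, (hinv ω hω).1]
      rw [e1, e2] at h3
      exact h3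

/-- the general theorem -/
theorem fin_three (h : ∃ c : ℝ, 0 < c ∧ ∀ (m : ℕ) (F : ℤ[X][X]), Hyp2 m F →
      c / (1 + meanP m (fun ω => mpc (sp ω F))) ^ 6 ≤
        meanP m (fun ω => Real.log (sp ω F).mahlerMeasure)) (hexp : T_EXP) : T_FIN := by
  obtain ⟨c, hc, hk⟩ := h
  refine ⟨c, hc, ?_⟩
  intro m F
  induction hn : F.natDegree using Nat.strong_induction_on generalizing F with
  | _ n ih =>
    intro hF
    rcases hexp m F hF with h2 | ⟨G, hG, hdeg, hinv⟩
    · exact hk m F h2
    · have h3 := ih G.natDegree (by rw [← hn]; exact hdeg) G rfl hG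
      have e1 : meanP m (fun ω => mpc (sp ω F)) = meanP m (fun ω => mpc (sp ω G)) :=
        meanP_congr hF.hm fun ω hω => (hinv ω hω).2
      have e2 : meanP m (fun ω => Real.log (sp ω F).mahlerMeasure) =
          meanP m (fun ω => Real.log (sp ω G).mahlerMeasure) :=
        meanP_congr hF.hm fun ω hω => by rw [(hinv ω hω).1]
      rw [e1, e2]
      exact h3

end Pool.Agent.Y947.RL2
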