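import Pool.Agent.Y947.RL.Stm3

/-!
Project RL: the congruence for the primes dividing `m` exactly once (by helper93; with the weaker assumptions Ctx2).
-/

set_option autoImplicit false

namespace Pool.Agent.Y947.RL2.Fr1

open Finset Polynomial Module Pool.Agent.H388SL Pool.Agent.Y947.DL Pool.Agent.Y947.RL

/-! ### congruences modulo a prime in commutative rings -/

lemma fresh {R : Type*} [CommRing R] {p : ℕ} (hp : p.Prime) {ι : Type*} (s : Finset ι)
    (f : ι → R) : ∃ r, (∑ i ∈ s, f i) ^ p = ∑ i ∈ s, (f i) ^ p + p * r := by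
  classical
  induction s using Finset.induction_on with
  | empty => exact ⟨0, by rw [sum_empty, sum_empty, zero_pow hp.ne_zero, mul_zero, add_zero]⟩
  | insert i s hi ih =>
    obtain ⟨r, hr⟩ := ih
    obtain ⟨r', hr'⟩ := exists_add_pow_prime_eq hp (f i) (∑ j ∈ s, f j)
    refine ⟨r + f i * (∑ j ∈ s, f j) * r', ?_⟩
    rw [sum_insert hi, sum_insert hi, hr', hr]
    ring

lemma fermat {p : ℕ} (hp : p.Prime) (a : ℤ) : ∃ b : ℤ, a ^ p = a + p * b := by
  have h1 : ((a ^ p - a : ℤ) : ZMod p) = 0 := by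
    have := Fact.mk hp
    push_cast
    rw [ZMod.pow_card, sub_self]
  obtain ⟨b, hb⟩ := (ZMod.intCast_zmod_eq_zero_iff_dvd _ _).1 h1
  exact ⟨b, by linear_combination hb⟩

lemma fresh_aeval {R : Type*} [CommRing R] {p : ℕ} (hp : p.Prime) (c : ℤ[X]) (x : R) :
    ∃ r, (aeval x c) ^ p = aeval (x ^ p) c + p * r := by
  choose b hb using fermat hp
  rw [aeval_eq_sum_range, aeval_eq_sum_range]
  obtain ⟨r, hr⟩ := fresh hp (range (c.natDegree + 1)) (fun i => c.coeff i • x ^ i)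
  refine ⟨∑ i ∈ range (c.natDegree + 1), (b (c.coeff i) : R) * (x ^ i) ^ p + r, ?_⟩
  rw [hr, mul_add, mul_sum, ← add_assoc, ← sum_add_distrib]
  congr 1
  refine sum_congr rfl fun i _ => ?_
  rw [zsmul_eq_mul, mul_pow, ← Int.cast_pow, hb, zsmul_eq_mul]
  push_cast
  ring

lemma sp_eval {A B : Type*} [CommRing A] [CommRing B] (f : A →+* B) (ω x : A) (F : ℤ[X][X]) :
    f ((sp ω F).eval x) = (sp (f ω) F).eval (f x) := by
  unfold sp
  rw [eval_map, eval_map, hom_eval₂]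
  congr 1
  refine RingHom.ext fun q => ?_
  show f (aeval ω q) = aeval (f ω) q
  rw [aeval_def, aeval_def, hom_eval₂]
  congr 1
  exact Subsingleton.elim _ _

lemma sp_coeff {A : Type*} [CommRing A] (ω : A) (F : ℤ[X][X]) (i : ℕ) :
    (sp ω F).coeff i = aeval ω (F.coeff i) := by
  unfold sp
  rw [coeff_map]
  rfl

lemma sp_sum {A : Type*} [CommRing A] (ω x : A) (F : ℤ[X][X]) :
    (sp ω F).eval x = ∑ i ∈ range (F.natDegree + 1), aeval ω (F.coeff i) * x ^ i := by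
  rw [eval_eq_sum_range' (n := F.natDegree + 1)]
  · exact sum_congr rfl fun i _ => by rw [sp_coeff]
  · unfold sp
    exact Nat.lt_succ_of_le natDegree_map_le

/-- `p` and the differences of powers in terms of `1 - η` -/
lemma eta {R : Type*} [CommRing R] [IsDomain R] {p : ℕ} (hp : p.Prime) {η : R}
    (hη : IsPrimitiveRoot η p) : ∃ y, (p : R) = (1 - η) ^ (p - 1) * y := by
  obtain ⟨n, rfl⟩ : ∃ n, p = n + 1 := ⟨p - 1, by have := hp.pos; omega⟩
  have h1 := hη.prod_one_sub_pow_eq_order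
  refine ⟨∏ k ∈ range n, ∑ l ∈ range (k + 1), η ^ l, ?_⟩
  have h2 : ∀ k ∈ range n, 1 - η ^ (k + 1) = (1 - η) * ∑ l ∈ range (k + 1), η ^ l := by
    intro k _
    rw [mul_neg_geom_sum]
  rw [prod_congr rfl h2, prod_mul_distrib, prod_const, card_range] at h1
  rw [Nat.add_sub_cancel, h1]
  push_cast
  rfl

lemma one_sub_dvd {R : Type*} [CommRing R] (η : R) (k : ℕ) : (1 - η) ∣ (1 - η ^ k) :=
  ⟨∑ l ∈ range k, η ^ l, (mul_neg_geom_sum η k).symm⟩

/-- the difference of two powers which agree modulo `m / p` -/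
lemma pow_diff {R : Type*} [CommRing R] (z : R) (m s p : ℕ) (h : s ≡ p [MOD m]) :
    (1 - z ^ m) ∣ (z ^ s - z ^ p) := by
  rcases le_total s p with hsp | hsp
  · obtain ⟨k, hk⟩ := (Nat.modEq_iff_dvd' hsp).1 h
    have h1 : p = s + m * k := by omega
    rw [h1, pow_add, pow_mul]
    refine (one_sub_dvd (z ^ m) k).trans ⟨z ^ s, by ring⟩
  · obtain ⟨k, hk⟩ := (Nat.modEq_iff_dvd' hsp).1 h.symm
    have h1 : s = p + m * k := by omega
    rw [h1, pow_add, pow_mul]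
    refine (one_sub_dvd (z ^ m) k).trans ⟨-z ^ p, by ring⟩

/-- the size of the inertia group -/
lemma card_Gset {m p : ℕ} (hp : p.Prime) (hpm : p ∣ m) (hp2 : ¬ p ^ 2 ∣ m) :
    (Gset m p).card ≤ p - 1 := by
  classical
  have h1 : (Gset m p).card ≤ ((range p).erase 0).card := by
    refine card_le_card_of_injOn (fun u => u % p) ?_ ?_
    · intro u hu
      have hu' := mem_filter.1 (mem_coe.1 hu)
      refine mem_coe.2 (mem_erase.2 ⟨?_, mem_range.2 (Nat.mod_lt _ hp.pos)⟩)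
      intro h0
      have h2 : p ∣ u := Nat.dvd_of_mod_eq_zero h0
      have h3 := Nat.dvd_gcd h2 hpm
      rw [hu'.2.1] at h3
      exact hp.one_lt.ne' (Nat.dvd_one.1 h3)
    · intro u hu v hv huv
      have hu' := mem_filter.1 (mem_coe.1 hu)
      have hv' := mem_filter.1 (mem_coe.1 hv)
      have h2 : u ≡ v [MOD m / p] := hu'.2.2.trans hv'.2.2.symm
      have h3 : u ≡ v [MOD p] := huv
      have hco : Nat.Coprime (m / p) p := by
        rw [Nat.coprime_comm, hp.coprime_iff_not_dvd]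
        intro h4
        apply hp2
        obtain ⟨k, hk⟩ := h4
        refine ⟨k, ?_⟩
        rw [← Nat.div_mul_cancel hpm, hk]
        ring
      have h4 := (Nat.modEq_and_modEq_iff_modEq_mul hco).1 ⟨h2, h3⟩
      rw [Nat.div_mul_cancel hpm] at h4
      have h5 := mem_range.1 hu'.1
      have h6 := mem_range.1 hv'.1
      unfold Nat.ModEq at h4
      rwa [Nat.mod_eq_of_lt h5, Nat.mod_eq_of_lt h6] at h4
  rw [card_erase_of_mem (mem_range.2 hp.pos), card_range] at h1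
  exact h1

section field

variable {K : Type} [Field K] [NumberField K]

/-- the product of the absolute values of `1 - η` -/
lemma norm_eta {p : ℕ} (hp : p.Prime) {η : K} (hη : IsPrimitiveRoot η p) :
    (p : ℝ) ^ finrank ℚ K ≤ (∏ σ : K →ₐ[ℚ] ℂ, ‖σ (1 - η)‖) ^ (p - 1) := by
  have hηi : IsIntegral ℤ η := hη.isIntegral hp.pos
  obtain ⟨n, hn⟩ : ∃ n, p = n + 1 := ⟨p - 1, by have := hp.pos; omega⟩
  subst hn
  have h1 := hη.prod_one_sub_pow_eq_order
  have h2 : ∀ σ : K →ₐ[ℚ] ℂ, (((n + 1 : ℕ) : ℝ)) = ∏ k ∈ range n, ‖σ (1 - η ^ (k + 1))‖ := by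
    intro σ
    have h3 := congrArg (fun z => ‖σ z‖) h1
    simp only [map_prod, norm_prod] at h3
    rw [h3, map_add, map_one, map_natCast]
    have h4 : ((n : ℂ) + 1) = (((n : ℝ) + 1 : ℝ) : ℂ) := by push_cast; rfl
    rw [h4, Complex.norm_real, Real.norm_of_nonneg (by positivity)]
    push_cast
    rfl
  have h3 : (((n + 1 : ℕ) : ℝ)) ^ finrank ℚ K =
      ∏ k ∈ range n, ∏ σ : K →ₐ[ℚ] ℂ, ‖σ (1 - η ^ (k + 1))‖ := by
    rw [prod_comm, ← prod_congr rfl fun σ _ => h2 σ, prod_const, card_univ,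
      AlgHom.card ℚ K ℂ]
  rw [h3, Nat.add_sub_cancel]
  have h4 : (∏ σ : K →ₐ[ℚ] ℂ, ‖σ (1 - η)‖) ^ n =
      ∏ _k ∈ range n, ∏ σ : K →ₐ[ℚ] ℂ, ‖σ (1 - η)‖ := by
    rw [prod_const, card_range]
  rw [h4]
  refine prod_le_prod (fun k _ => prod_nonneg fun σ _ => norm_nonneg _) fun k hk => ?_
  have hk' := mem_range.1 hk
  have hco : Nat.Coprime (k + 1) (n + 1) := by
    rw [Nat.coprime_comm, hp.coprime_iff_not_dvd]
    intro h5
    have := Nat.le_of_dvd (Nat.succ_pos k) h5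
    omega
  obtain ⟨l, -, hl⟩ := Nat.exists_mul_mod_eq_one_of_coprime hco hp.one_lt
  have h5 : η = (η ^ (k + 1)) ^ l := by
    rw [← pow_mul, ← Nat.div_add_mod ((k + 1) * l) (n + 1), hl, pow_add, pow_mul, hη.pow_eq_one,
      one_pow, one_mul, pow_one]
  set z : K := ∑ j ∈ range l, (η ^ (k + 1)) ^ j with hz
  have h6 : 1 - η = (1 - η ^ (k + 1)) * z := by
    rw [hz, mul_neg_geom_sum, ← h5]
  have hzi : IsIntegral ℤ z := IsIntegral.sum _ fun j _ => (hηi.pow _).pow _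
  have hz0 : z ≠ 0 := by
    intro h7
    rw [h7, mul_zero] at h6
    exact hη.ne_one hp.one_lt (sub_eq_zero.1 h6).symm
  have h7 := one_le_prod_norm hzi hz0
  have h8 : ∏ σ : K →ₐ[ℚ] ℂ, ‖σ (1 - η)‖ =
      (∏ σ : K →ₐ[ℚ] ℂ, ‖σ (1 - η ^ (k + 1))‖) * ∏ σ : K →ₐ[ℚ] ℂ, ‖σ z‖ := by
    rw [← prod_mul_distrib]
    refine prod_congr rfl fun σ _ => ?_
    rw [h6, map_mul, norm_mul]
  rw [h8]
  exact le_mul_of_one_le_right (prod_nonneg fun σ _ => norm_nonneg _) h7

/-- the minimal polynomial over the cyclotomic field is fixed by the stabiliser -/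
lemma sp_fix (hTR : S_TR) {m : ℕ} {ζ α : K} (hc : Ctx2 m ζ α) {F : ℤ[X][X]}
    (hF : ∀ σ : K →ₐ[ℚ] ℂ, sp (σ ζ) F = ∏ τ ∈ cls ζ (σ ζ), (X - C (τ α))) {u : ℕ}
    (hu : u.Coprime m) (hfix : Fix ζ α u) (σ : K →ₐ[ℚ] ℂ) :
    sp ((σ ζ) ^ u) F = sp (σ ζ) F := by
  classical
  obtain ⟨h1, -, h3⟩ := hTR K m ζ hc.hm hc.hζ
  obtain ⟨σ', hσ'⟩ := h1 σ u hu
  have hprim : ∀ τ : K →ₐ[ℚ] ℂ, IsPrimitiveRoot (τ ζ) m := fun τ =>
    hc.hζ.map_of_injective τ.toRingHom.injective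
  have hcard : (cls ζ (σ ζ)).card = (cls ζ (σ' ζ)).card := by
    have e1 := h3 _ (hprim σ)
    have e2 := h3 _ (hprim σ')
    rw [← e2] at e1
    exact Nat.eq_of_mul_eq_mul_right (Nat.totient_pos.2 hc.hm) e1
  choose f hf1 hf2 using hfix
  have hmaps : ∀ τ ∈ cls ζ (σ ζ), f τ ∈ cls ζ (σ' ζ) := by
    intro τ hτ
    have h4 : τ ζ = σ ζ := (mem_filter.1 hτ).2
    refine mem_filter.2 ⟨mem_univ _, ?_⟩
    rw [hf1, h4, hσ']
  have hinj : Set.InjOn f (cls ζ (σ ζ)) := by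
    intro τ hτ τ' hτ' h
    have h4 : τ ζ = σ ζ := (mem_filter.1 hτ).2
    have h5 : τ' ζ = σ ζ := (mem_filter.1 hτ').2
    refine hc.gen τ τ' (h4.trans h5.symm) ?_
    rw [← hf2 τ, ← hf2 τ', h]
  have himg : (cls ζ (σ ζ)).image f = cls ζ (σ' ζ) := by
    refine eq_of_subset_of_card_le ?_ ?_
    · intro τ hτ
      obtain ⟨τ', hτ', rfl⟩ := mem_image.1 hτ
      exact hmaps τ' hτ'
    · rw [card_image_of_injOn hinj, hcard]
  rw [← hσ', hF, hF, ← himg, prod_image hinj]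
  exact prod_congr rfl fun τ _ => by rw [hf2]

end field

/-- **the congruence for the primes dividing `m` exactly once** -/
theorem fr1 : S_J0 → S_TR → S_PI → T_FR1 := by
  classical
  intro hJ0 hTR hPI K _ _ m ζ α hc p hp hpm hp2 s hs hsp hne
  obtain ⟨F, -, hF⟩ := hJ0 K m ζ hc.hm hc.hζ α hc.hα
  obtain ⟨hTR1, hTR2, -⟩ := hTR K m ζ hc.hm hc.hζ
  obtain ⟨σ0, -⟩ := hTR2 _ (Complex.isPrimitiveRoot_exp m hc.hm.ne')
  have hinj0 : Function.Injective σ0 := σ0.toRingHom.injective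
  have hm2 : 2 ≤ m := hp.two_le.trans (Nat.le_of_dvd hc.hm hpm)
  -- the stabiliser
  set H := Hset m p ζ α with hH
  have hHG : H ⊆ Gset m p := filter_subset _ _
  have hHcop : ∀ u ∈ H, u.Coprime m := fun u hu => (mem_filter.1 (hHG hu)).2.1
  have hHfix : ∀ u ∈ H, Fix ζ α u := fun u hu => (mem_filter.1 hu).2
  have h1H : 1 ∈ H := by
    refine mem_filter.2 ⟨mem_filter.2 ⟨mem_range.2 (by omega), Nat.coprime_one_left m,
      Nat.ModEq.refl 1⟩, fun σ => ⟨σ, (pow_one _).symm, rfl⟩⟩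
  have hmulH : ∀ u ∈ H, ∀ v ∈ H, u * v % m ∈ H := by
    intro u hu v hv
    have hu' := mem_filter.1 (hHG hu)
    have hv' := mem_filter.1 (hHG hv)
    refine mem_filter.2 ⟨mem_filter.2 ⟨mem_range.2 (Nat.mod_lt _ hc.hm), ?_, ?_⟩, ?_⟩
    · have h1 := Nat.Coprime.mul_left hu'.2.1 hv'.2.1
      have h2 := (Nat.mod_modEq (u * v) m).gcd_eq
      unfold Nat.Coprime at h1 ⊢
      rw [h2]
      exact h1
    · have h1 : u * v % m ≡ u * v [MOD m / p] :=
        (Nat.mod_modEq (u * v) m).of_dvd (Nat.div_dvd_of_dvd hpm)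
      have h2 : u * v ≡ 1 * 1 [MOD m / p] := hu'.2.2.mul hv'.2.2
      rw [one_mul] at h2
      exact h1.trans h2
    · intro σ
      obtain ⟨τ1, e1, e2⟩ := hHfix u hu σ
      obtain ⟨τ2, e3, e4⟩ := hHfix v hv τ1
      refine ⟨τ2, ?_, e4.trans e2⟩
      have h3 : (σ ζ) ^ m = 1 := by rw [← map_pow, hc.hζ.pow_eq_one, map_one]
      rw [e3, e1, ← pow_mul]
      conv_lhs => rw [← Nat.div_add_mod (u * v) m]
      rw [pow_add, pow_mul, h3, one_pow, one_mul]
  -- coefficients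
  have hcf : ∀ u ∈ H, ∀ t : ℕ, t.Coprime m → ∀ i,
      aeval (ζ ^ (t * u)) (F.coeff i) = aeval (ζ ^ t) (F.coeff i) := by
    intro u hu t ht i
    obtain ⟨σ', hσ'⟩ := hTR1 σ0 t ht
    have h1 := congrArg (fun P => P.coeff i) (sp_fix hTR hc hF (hHcop u hu) (hHfix u hu) σ')
    simp only [sp_coeff] at h1
    apply hinj0
    have h2 : ∀ n : ℕ, σ0 (aeval (ζ ^ n) (F.coeff i)) = aeval ((σ0 ζ) ^ n) (F.coeff i) := by
      intro n
      rw [← map_pow, aeval_def, aeval_def]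
      show σ0.toRingHom _ = _
      rw [hom_eval₂]
      congr 1
      exact Subsingleton.elim _ _
    rw [h2, h2, pow_mul, ← hσ', h1]
  -- the ring of integers
  have hζi : IsIntegral ℤ ζ := hc.hζ.isIntegral hc.hm
  set O := NumberField.RingOfIntegers K with hO
  obtain ⟨z, hz⟩ : ∃ z : O, algebraMap O K z = ζ := ⟨⟨ζ, hζi⟩, rfl⟩
  obtain ⟨a, ha⟩ : ∃ a : O, algebraMap O K a = α := ⟨⟨α, hc.hα⟩, rfl⟩
  have hinjO : Function.Injective (algebraMap O K) := NumberField.RingOfIntegers.coe_injective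
  have hzp : IsPrimitiveRoot z m := by
    refine IsPrimitiveRoot.of_map_of_injective (f := algebraMap O K) ?_ hinjO
    rw [hz]
    exact hc.hζ
  have hη : IsPrimitiveRoot (z ^ (m / p)) p := hzp.pow hc.hm (Nat.div_mul_cancel hpm).symm
  have hηK : IsPrimitiveRoot (ζ ^ (m / p)) p := hc.hζ.pow hc.hm (Nat.div_mul_cancel hpm).symm
  set π : O := 1 - z ^ (m / p) with hπ
  have hπK : algebraMap O K π = 1 - ζ ^ (m / p) := by
    rw [hπ, map_sub, map_one, map_pow, hz]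
  obtain ⟨y0, hy0⟩ := eta hp hη
  have hpπ : ∀ k, k ≤ p - 1 → π ^ k ∣ (p : O) := by
    intro k hk
    rw [hy0]
    exact (pow_dvd_pow π hk).trans (dvd_mul_right _ _)
  have hHle : H.card ≤ p - 1 := (card_le_card hHG).trans (card_Gset hp hpm hp2)
  have haev : ∀ (q : ℤ[X]) (w : O), algebraMap O K (aeval w q) = aeval (algebraMap O K w) q :=
    fun q w => (aeval_algebraMap_apply K w q).symm
  -- the coefficients of the difference
  have hA : ∀ i, π ^ H.card ∣ aeval (z ^ s) (F.coeff i) - (aeval z (F.coeff i)) ^ p := by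
    intro i
    set A : ℤ[X] := (F.coeff i).comp (X ^ s) - (F.coeff i) ^ p with hAd
    have hAe : ∀ w : K, aeval w A = aeval (w ^ s) (F.coeff i) - (aeval w (F.coeff i)) ^ p := by
      intro w
      rw [hAd, map_sub, map_pow, aeval_comp, map_pow, aeval_X]
    have h1 : ∀ u ∈ H, aeval (ζ ^ u) A = aeval ζ A := by
      intro u hu
      rw [hAe, hAe, ← pow_mul, mul_comm u s, hcf u hu s hs i]
      have h2 := hcf u hu 1 (Nat.coprime_one_left m) i
      rw [one_mul, pow_one] at h2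
      rw [h2]
    have h2 : π ∣ aeval (z ^ s) (F.coeff i) - (aeval z (F.coeff i)) ^ p := by
      obtain ⟨r, hr⟩ := fresh_aeval hp (F.coeff i) z
      have h3 : (z ^ s - z ^ p) ∣ aeval (z ^ s) (F.coeff i) - aeval (z ^ p) (F.coeff i) := by
        have h4 := sub_dvd_eval_sub (z ^ s) (z ^ p) ((F.coeff i).map (algebraMap ℤ O))
        rw [eval_map_algebraMap, eval_map_algebraMap] at h4
        exact h4
      have h5 := (pow_diff z (m / p) s p hsp).trans h3
      have h6 : π ∣ (p : O) := by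
        have := hpπ 1 (by have := hp.two_le; omega)
        rwa [pow_one] at this
      rw [hr]
      have h7 : aeval (z ^ s) (F.coeff i) - (aeval (z ^ p) (F.coeff i) + p * r) =
          (aeval (z ^ s) (F.coeff i) - aeval (z ^ p) (F.coeff i)) - p * r := by ring
      rw [h7]
      exact dvd_sub h5 (h6.trans (dvd_mul_right _ _))
    obtain ⟨y, hy⟩ := h2
    have h3 : algebraMap O K (aeval (z ^ s) (F.coeff i) - (aeval z (F.coeff i)) ^ p) =
        aeval ζ A := by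
      rw [hAe, map_sub, map_pow, haev, haev, map_pow, hz]
    obtain ⟨w, hw, hw'⟩ := hPI K m ζ hc.hm hc.hζ p hp hpm hp2 H hHG h1H hmulH A h1
      ⟨algebraMap O K y, NumberField.RingOfIntegers.isIntegral_coe y, by
        rw [← h3, hy, map_mul, hπK]⟩
    obtain ⟨w', hw''⟩ : ∃ w' : O, algebraMap O K w' = w := ⟨⟨w, hw⟩, rfl⟩
    refine ⟨w', hinjO ?_⟩
    rw [h3, hw', map_mul, map_pow, hπK, hw'']
  -- the element
  set x : O := (sp (z ^ s) F).eval (a ^ p) with hx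
  have hroot : (sp z F).eval a = 0 := by
    apply hinjO
    apply hinj0
    have h1 : σ0 (algebraMap O K ((sp z F).eval a)) = (sp (σ0 ζ) F).eval (σ0 α) := by
      have h2 := sp_eval (σ0.toRingHom.comp (algebraMap O K)) z a F
      have h3 : (σ0.toRingHom.comp (algebraMap O K)) z = σ0 ζ := by
        rw [← hz]
        rfl
      have h4 : (σ0.toRingHom.comp (algebraMap O K)) a = σ0 α := by
        rw [← ha]
        rfl
      rw [h3, h4] at h2
      exact h2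
    rw [h1, hF, eval_prod, map_zero, map_zero]
    refine prod_eq_zero (i := σ0) (mem_filter.2 ⟨mem_univ _, rfl⟩) ?_
    rw [eval_sub, eval_X, eval_C, sub_self]
  have hdvd : π ^ H.card ∣ x := by
    have h1 := sp_sum z a F
    rw [hroot] at h1
    obtain ⟨r, hr⟩ := fresh hp (range (F.natDegree + 1)) (fun i => aeval z (F.coeff i) * a ^ i)
    rw [← h1, zero_pow hp.ne_zero] at hr
    have h2 : x = ∑ i ∈ range (F.natDegree + 1),
        (aeval (z ^ s) (F.coeff i) - (aeval z (F.coeff i)) ^ p) * (a ^ p) ^ i + -(p * r) := by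
      rw [hx, sp_sum]
      have h3 : -((p : O) * r) = ∑ i ∈ range (F.natDegree + 1),
          (aeval z (F.coeff i) * a ^ i) ^ p := by
        linear_combination hr
      rw [h3, ← sum_add_distrib]
      refine sum_congr rfl fun i _ => ?_
      rw [mul_pow, ← pow_mul, ← pow_mul, mul_comm i p]
      ring
    rw [h2]
    refine dvd_add (dvd_sum fun i _ => (hA i).trans (dvd_mul_right _ _)) ?_
    rw [dvd_neg]
    exact (hpπ _ hHle).trans (dvd_mul_right _ _)
  obtain ⟨y, hy⟩ := hdvd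
  have hσx : ∀ σ : K →ₐ[ℚ] ℂ, σ (algebraMap O K x) =
      ∏ τ ∈ cls ζ ((σ ζ) ^ s), ((σ α) ^ p - τ α) := by
    intro σ
    obtain ⟨σ', hσ'⟩ := hTR1 σ s hs
    have h2 := sp_eval (σ.toRingHom.comp (algebraMap O K)) (z ^ s) (a ^ p) F
    have h3 : (σ.toRingHom.comp (algebraMap O K)) (z ^ s) = (σ ζ) ^ s := by
      rw [← hz, map_pow]
      rfl
    have h4 : (σ.toRingHom.comp (algebraMap O K)) (a ^ p) = (σ α) ^ p := by
      rw [← ha, map_pow]
      rfl
    rw [h3, h4, ← hσ', hF, eval_prod] at h2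
    have h5 : σ (algebraMap O K x) = ∏ τ ∈ cls ζ (σ' ζ), eval ((σ α) ^ p) (X - C (τ α)) := h2
    rw [h5, hσ']
    exact prod_congr rfl fun τ _ => by rw [eval_sub, eval_X, eval_C]
  have hx0 : algebraMap O K x ≠ 0 := by
    intro h
    have h1 := hσx σ0
    rw [h, map_zero] at h1
    obtain ⟨τ, hτ, hτ0⟩ := prod_eq_zero_iff.1 h1.symm
    exact hne σ0 τ hτ (sub_eq_zero.1 hτ0)
  have hxy : algebraMap O K x = (1 - ζ ^ (m / p)) ^ H.card * algebraMap O K y := by
    rw [hy, map_mul, map_pow, hπK]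
  have hy1 : 1 ≤ ∏ σ : K →ₐ[ℚ] ℂ, ‖σ (algebraMap O K y)‖ := by
    refine one_le_prod_norm (NumberField.RingOfIntegers.isIntegral_coe y) ?_
    intro h
    rw [h, mul_zero] at hxy
    exact hx0 hxy
  have hgoal : ∏ σ : K →ₐ[ℚ] ℂ, ∏ τ ∈ cls ζ ((σ ζ) ^ s), ‖(σ α) ^ p - τ α‖ =
      (∏ σ : K →ₐ[ℚ] ℂ, ‖σ (1 - ζ ^ (m / p))‖) ^ H.card *
        ∏ σ : K →ₐ[ℚ] ℂ, ‖σ (algebraMap O K y)‖ := by
    rw [← prod_pow, ← prod_mul_distrib]
    refine prod_congr rfl fun σ _ => ?_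
    rw [← norm_prod, ← hσx, hxy, map_mul, map_pow, norm_mul, norm_pow]
  rw [hgoal]
  set N : ℝ := ∏ σ : K →ₐ[ℚ] ℂ, ‖σ (1 - ζ ^ (m / p))‖ with hN
  have hN0 : 0 ≤ N := prod_nonneg fun σ _ => norm_nonneg _
  have hNp := norm_eta hp hηK
  rw [← hN] at hNp
  have hp1 : (1 : ℝ) < p := by exact_mod_cast hp.one_lt
  have hp0 : (0 : ℝ) < p := by linarith
  have hpm1 : (0 : ℝ) < (p : ℝ) - 1 := by linarith
  have hcast : ((p - 1 : ℕ) : ℝ) = (p : ℝ) - 1 := by
    rw [Nat.cast_sub hp.one_le, Nat.cast_one]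
  have hroot2 : (p : ℝ) ^ ((finrank ℚ K : ℝ) / (p - 1)) ≤ N := by
    have h1 : ((p : ℝ) ^ (finrank ℚ K)) ^ (1 / ((p : ℝ) - 1)) ≤
        (N ^ (p - 1)) ^ (1 / ((p : ℝ) - 1)) :=
      Real.rpow_le_rpow (by positivity) hNp (by positivity)
    have h2 : (N ^ (p - 1)) ^ (1 / ((p : ℝ) - 1)) = N := by
      rw [← Real.rpow_natCast, ← Real.rpow_mul hN0, hcast, mul_one_div, div_self hpm1.ne',
        Real.rpow_one]
    have h3 : ((p : ℝ) ^ (finrank ℚ K)) ^ (1 / ((p : ℝ) - 1)) =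
        (p : ℝ) ^ ((finrank ℚ K : ℝ) / (p - 1)) := by
      rw [← Real.rpow_natCast, ← Real.rpow_mul hp0.le, mul_one_div]
    rwa [h2, h3] at h1
  have hfin : (p : ℝ) ^ ((finrank ℚ K : ℝ) * H.card / (p - 1)) ≤ N ^ H.card := by
    have h1 : (p : ℝ) ^ ((finrank ℚ K : ℝ) * H.card / (p - 1)) =
        ((p : ℝ) ^ ((finrank ℚ K : ℝ) / (p - 1))) ^ H.card := by
      rw [← Real.rpow_natCast, ← Real.rpow_mul hp0.le]
      congr 1
      ring
    rw [h1]
    exact pow_le_pow_left₀ (by positivity) hroot2 _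
  exact hfin.trans (le_mul_of_one_le_right (pow_nonneg hN0 _) hy1)

end Pool.Agent.Y947.RL2.Fr1
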