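import Mathlib
import Pool.Agent.Y947.RL.Stm3

/-!
# Project RL: FXE with the weaker assumptions (proof of helper70)
-/

set_option autoImplicit false

open Finset Polynomial Module Pool.Agent.H388SL Pool.Agent.Y947.DL Pool.Agent.Y947.RL

namespace Pool.Agent.Y947.RL2

theorem fxe2 (hTR : S_TR) : T_FXE := by
  classical
  intro K _ _ m ζ α hC u hu hfix ω hω
  obtain ⟨-, -, hcard⟩ := hTR K m ζ hC.hm hC.hζ
  have hω' : IsPrimitiveRoot (ω ^ u) m := hω.pow_of_coprime u hu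
  have hφ : 0 < Nat.totient m := Nat.totient_pos.2 hC.hm
  have hc : (cls ζ (ω ^ u)).card = (cls ζ ω).card := by
    have h1 := hcard ω hω
    have h2 := hcard _ hω'
    rw [← h1] at h2
    exact Nat.eq_of_mul_eq_mul_right hφ h2
  choose g hg1 hg2 using hfix
  have hmem : ∀ (w : ℂ) (τ : K →ₐ[ℚ] ℂ), τ ∈ cls ζ w ↔ τ ζ = w := by
    intro w τ
    unfold cls
    rw [Finset.mem_filter]
    exact ⟨fun h => h.2, fun h => ⟨Finset.mem_univ _, h⟩⟩
  have hinj : Set.InjOn g (cls ζ ω : Set (K →ₐ[ℚ] ℂ)) := by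
    intro σ hσ τ hτ h
    have h1 : σ ζ = ω := (hmem _ _).1 hσ
    have h2 : τ ζ = ω := (hmem _ _).1 hτ
    refine hC.gen σ τ (h1.trans h2.symm) ?_
    rw [← hg2 σ, ← hg2 τ, h]
  have himg : (cls ζ ω).image g = cls ζ (ω ^ u) := by
    refine Finset.eq_of_subset_of_card_le ?_ ?_
    · intro τ hτ
      obtain ⟨σ, hσ, rfl⟩ := Finset.mem_image.1 hτ
      rw [hmem] at hσ ⊢
      rw [hg1, hσ]
    · rw [hc, Finset.card_image_of_injOn hinj]
  rw [← himg, Finset.prod_image hinj]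
  refine Finset.prod_congr rfl fun σ _ => ?_
  rw [hg2]

end Pool.Agent.Y947.RL2
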