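import Mathlib
import Pool.Agent.Y947.RL.Stm3
import Pool.Agent.Y545.RL.RED

/-!
# Project RL: RED with the weaker assumptions (proof of helper545)
-/

set_option autoImplicit false

open Finset Polynomial Module Pool.Agent.Y947.RL Pool.Agent.Y545.RL

namespace Pool.Agent.Y947.RL2

theorem red2 : T_RED := by
  intro m F hF p hp hpm hfix
  have hm := hF.hm
  have key : ∀ ω : ℂ, IsPrimitiveRoot ω m → sp (ω ^ p) (con p F) = sp ω F := by
    intro ω hω
    ext i
    rw [sp_coeff, sp_coeff, con_coeff]
    have hξ : IsPrimitiveRoot (ω ^ (m / p)) p := by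
      have h := hω.pow hm (Nat.div_mul_cancel ((dvd_pow_self p two_ne_zero).trans hpm)).symm
      exact h
    have h1 := avg hp hξ ω (F.coeff i)
    have h2 : ∀ j ∈ Finset.range p, aeval (ω * (ω ^ (m / p)) ^ j) (F.coeff i) =
        aeval ω (F.coeff i) := by
      intro j hj
      have h3 := hfix ω hω _ (mem_Gset hm hp hpm (Finset.mem_range.1 hj))
      have h4 := congrArg (fun P => Polynomial.coeff P i) h3
      simp only [sp_coeff] at h4
      rw [← h4, ← pow_mul, pow_add, pow_one, mul_comm j (m / p)]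
    rw [Finset.sum_congr rfl h2, Finset.sum_const, Finset.card_range, nsmul_eq_mul] at h1
    have hp0 : (p : ℂ) ≠ 0 := by exact_mod_cast hp.ne_zero
    exact (mul_left_cancel₀ hp0 h1).symm
  refine ⟨con p F, ⟨?_, con_monic p hF.monic, ?_, ?_, ?_, ?_⟩, key⟩
  · exact Nat.div_pos (Nat.le_of_dvd hm ((dvd_pow_self p two_ne_zero).trans hpm)) hp.pos
  · intro ω' hω'
    obtain ⟨ω, hω, rfl⟩ := exists_root hm hp hpm hω'
    have hle : IntermediateField.adjoin ℚ {ω ^ p} ≤ IntermediateField.adjoin ℚ {ω} := by
      rw [IntermediateField.adjoin_simple_le_iff]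
      exact pow_mem (IntermediateField.mem_adjoin_simple_self ℚ ω) p
    refine Polynomial.Monic.irreducible_of_irreducible_map
      (IntermediateField.inclusion hle).toRingHom _ (sp_monic _ (con_monic p hF.monic)) ?_
    have h1 := hF.irr ω hω
    have h2 : (sp (IntermediateField.AdjoinSimple.gen ℚ (ω ^ p) :
        IntermediateField.adjoin ℚ {ω ^ p}) (con p F)).map
        (IntermediateField.inclusion hle).toRingHom =
        sp (IntermediateField.AdjoinSimple.gen ℚ ω : IntermediateField.adjoin ℚ {ω}) F := by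
      refine Polynomial.map_injective (algebraMap (IntermediateField.adjoin ℚ {ω}) ℂ)
        (algebraMap (IntermediateField.adjoin ℚ {ω}) ℂ).injective ?_
      rw [sp_map, sp_map, sp_map]
      exact key ω hω
    rw [h2]
    exact h1
  · intro ω' hω'
    obtain ⟨ω, hω, rfl⟩ := exists_root hm hp hpm hω'
    rw [key ω hω]
    exact hF.h0 ω hω
  · intro ω' hω'
    obtain ⟨ω, hω, rfl⟩ := exists_root hm hp hpm hω'
    rw [key ω hω]
    exact hF.hroot ω hω
  · intro ω₁ hω₁
    obtain ⟨ω, hω, rfl⟩ := exists_root hm hp hpm hω₁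
    rw [key ω hω]
    exact hF.quot ω hω

end Pool.Agent.Y947.RL2
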