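import Mathlib
import Pool.Agent.Y947.RL2.Fin2
import Pool.Agent.Y947.RL2.Fr1
import Pool.Agent.Y947.RL2.Fxe
import Pool.Agent.Y947.RL2.Red
import Pool.Agent.Y65.RL.Tr
import Pool.Agent.Y65.RL.Quo
import Pool.Agent.Y578.RL.J0
import Pool.Agent.Y849.RL.Nv
import Pool.Agent.Y722.RL.Nrm
import Pool.Agent.Y692.RL.Ram
import Pool.Agent.Y692.RL.Pi
import Pool.Agent.Y528.RL.Psd
import Pool.Agent.Y70.RL.MeaFxe
import Pool.Agent.Y319.RL.Opt
import Pool.Agent.Y286.RL.AN1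
import Pool.Agent.Y429.RL.Quo2
import Pool.Agent.Y429.RL.FXGen2
import Pool.Agent.Y429.RL.SLF2
import Pool.Agent.Y406.RL.Ana2
import Pool.Agent.Y564.RL.H1b
import Pool.Agent.Y730.RL.H2b
import Pool.Agent.Y730.RL.Fk2
import Pool.Agent.Y968.RL.UTK
import Pool.Agent.Y162.RL.TWA
import Pool.Agent.Y950.RL.Ctw
import Pool.Agent.Y545.RL.SC
import Pool.Agent.Y994.RL.Exp

/-!
# Project RL: the theorem without a hypothesis on quotients of conjugates
-/

set_option autoImplicit false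

open Pool.Agent.Y947.RL

namespace Pool.Agent.Y947.RL2

theorem t_fin : T_FIN := by
  have tr : S_TR := Y65.RL.tr
  have j0 : S_J0 := Y578.RL.j0
  have nv : S_NV := Y849.RL.nv
  have nrm : S_NRM := Y722.RL.nrm j0 tr
  have fr0 : S_FR0 := Y65.RL.fr0 j0 tr
  have pi : S_PI := Y692.RL.pi
  have fr1 : T_FR1 := Fr1.fr1 j0 tr pi
  have ram : S_RAM := Y692.RL.ram j0 tr
  have quo : T_QUO := Y429.RL.quo2 j0 tr
  have fx : T_FX := Y429.RL.fx2 tr
  have psd : S_PSD := Y528.RL.psdE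
  have gen : T_GEN := Y429.RL.gen2 tr
  have slf : T_SLF := Y429.RL.slf2 tr quo
  have opt : S_OPT := Y319.RL.opt
  have an1 : S_AN1 := Y286.RL.an1
  have fxe : T_FXE := fxe2 tr
  have mea : S_MEA := Y70.RL.mea
  have ana : T_ANA := Y406.RL.ana2 an1 tr fx fxe
  have h1 : T_H1 := Y564.RL.h1b psd gen slf fr0 fr1 ram nrm nv tr fx
  have h2 : T_H2 := Y730.RL.H2.h2b psd gen slf ram fx
  have fk : T_FK := Y730.RL.FK.fk2 tr
  have red : T_RED := red2
  have utk : T_UTK := Y968.RL.utk tr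
  have twa : T_TWA := Y162.RL.twa tr
  have ctw : T_CTW := Y950.RL.ctw
  have sc : T_SC := Y545.RL.sc
  have exp : T_EXP := Y994.RL.Exp.exp3
  exact fin_three (fin_two (kth2 opt ana h1 h2 fx) fk red mea fxe sc utk twa ctw) exp

end Pool.Agent.Y947.RL2
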